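import Mathlib

set_option autoImplicit false

namespace Pool.Agent.H.MP_bc9e10_co

open Finset

/-- linear space with constant block size and without four blocks in general position -/
structure Des (P : Type) (k : ℕ) (IsB : Finset P → Prop) : Prop where
  ex : ∀ a b : P, a ≠ b → ∃ B, IsB B ∧ a ∈ B ∧ b ∈ B
  sz : ∀ B, IsB B → B.card = k
  un : ∀ B B', IsB B → IsB B' → ∀ a b, a ≠ b → a ∈ B → b ∈ B → a ∈ B' → b ∈ B' → B = B'
  on : ∀ X1 X2 X3 X4, IsB X1 → IsB X2 → IsB X3 → IsB X4 → X1 ≠ X3 → ∀ a b c d e f : P,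
    a ∈ X2 → a ∈ X3 → b ∈ X1 → b ∈ X3 → c ∈ X1 → c ∈ X2 → d ∈ X1 → d ∈ X4 → e ∈ X2 → e ∈ X4 →
    f ∈ X3 → f ∈ X4 → b ≠ c → d ≠ b → d ≠ c → a ≠ c → e ≠ a → e ≠ c → a ≠ b → f ≠ a → f ≠ b →
    False

def Reg {V : Type} (A B C D : Finset V) : Prop :=
  ∀ v, (v ∈ A → v ∈ B ∨ v ∈ C ∨ v ∈ D) ∧ (v ∈ B → v ∈ A ∨ v ∈ C ∨ v ∈ D) ∧
    (v ∈ C → v ∈ A ∨ v ∈ B ∨ v ∈ D) ∧ (v ∈ D → v ∈ A ∨ v ∈ B ∨ v ∈ C) ∧
    ¬ (v ∈ A ∧ v ∈ B ∧ v ∈ C) ∧ ¬ (v ∈ A ∧ v ∈ B ∧ v ∈ D) ∧ ¬ (v ∈ A ∧ v ∈ C ∧ v ∈ D) ∧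
    ¬ (v ∈ B ∧ v ∈ C ∧ v ∈ D)

structure Good (V : Type) [DecidableEq V] (H : Finset (Finset V)) : Prop where
  c3 : ∀ e ∈ H, e.card = 3
  pr : ∀ a b : V, a ≠ b → 3 ≤ (H.filter (fun e => a ∈ e ∧ b ∈ e)).card
  nr : ∀ A ∈ H, ∀ B ∈ H, ∀ C ∈ H, ∀ D ∈ H, A ≠ B → A ≠ C → A ≠ D → B ≠ C → B ≠ D → C ≠ D →
    ¬ Reg A B C D

variable {P : Type} [DecidableEq P] {k : ℕ} {IsB : Finset P → Prop}

theorem k1 (hD : Des P k IsB) {A B C D X Y Z : Finset P} (hX : IsB X) (hY : IsB Y) (hZ : IsB Z)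
    (hA : A.card = 3) (hB : B.card = 3) (hC : C.card = 3) (hAX : A ⊆ X) (hBX : B ⊆ X)
    (hCY : C ⊆ Y) (hDZ : D ⊆ Z) (hAB : A ≠ B) (hr : Reg A B C D) : X = Y := by
  by_contra hXY
  have one : ∀ u v, u ∈ X → u ∈ Y → v ∈ X → v ∈ Y → u = v := by
    intro u v h1 h2 h3 h4
    by_contra huv
    exact hXY (hD.un X Y hX hY u v huv h1 h3 h2 h4)
  have h1 : (C \ D).card ≤ 1 := by
    rw [card_le_one]
    intro u hu v hv
    rw [mem_sdiff] at hu hv
    have hu' : u ∈ X := by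
      rcases (hr u).2.2.1 hu.1 with h | h | h
      · exact hAX h
      · exact hBX h
      · exact absurd h hu.2
    have hv' : v ∈ X := by
      rcases (hr v).2.2.1 hv.1 with h | h | h
      · exact hAX h
      · exact hBX h
      · exact absurd h hv.2
    exact one u v hu' (hCY hu.1) hv' (hCY hv.1)
  have h2 : 1 < (C ∩ D).card := by
    have := card_sdiff_add_card_inter C D
    omega
  obtain ⟨u, hu, v, hv, huv⟩ := one_lt_card.mp h2
  rw [mem_inter] at hu hv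
  have hYZ : Y = Z := hD.un Y Z hY hZ u v huv (hCY hu.1) (hCY hv.1) (hDZ hu.2) (hDZ hv.2)
  subst hYZ
  have n1 : ¬ A ⊆ B := fun h => hAB (eq_of_subset_of_card_le h (by omega))
  have n2 : ¬ B ⊆ A := fun h => hAB (eq_of_subset_of_card_le h (by omega)).symm
  obtain ⟨a, ha, ha'⟩ := not_subset.mp n1
  obtain ⟨b, hb, hb'⟩ := not_subset.mp n2
  have haY : a ∈ Y := by
    rcases (hr a).1 ha with h | h | h
    · exact absurd h ha'
    · exact hCY h
    · exact hDZ h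
  have hbY : b ∈ Y := by
    rcases (hr b).2.1 hb with h | h | h
    · exact absurd h hb'
    · exact hCY h
    · exact hDZ h
  have := one a b (hAX ha) haY (hBX hb) hbY
  subst this
  exact ha' hb

theorem k2 (hD : Des P k IsB) {A B C D X Y Z : Finset P} (hX : IsB X) (hY : IsB Y) (hZ : IsB Z)
    (hA : A.card = 3) (hAX : A ⊆ X) (hCY : C ⊆ Y) (hDZ : D ⊆ Z) (hXY : X ≠ Y) (hXZ : X ≠ Z)
    (hr : ∀ v, v ∈ A → v ∈ B ∨ v ∈ C ∨ v ∈ D) : ∃ v, v ∈ A ∧ v ∈ B := by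
  by_contra hn
  push Not at hn
  have h1 : (A ∩ C).card ≤ 1 := by
    rw [card_le_one]
    intro u hu v hv
    rw [mem_inter] at hu hv
    by_contra huv
    exact hXY (hD.un X Y hX hY u v huv (hAX hu.1) (hAX hv.1) (hCY hu.2) (hCY hv.2))
  have h2 : (A ∩ D).card ≤ 1 := by
    rw [card_le_one]
    intro u hu v hv
    rw [mem_inter] at hu hv
    by_contra huv
    exact hXZ (hD.un X Z hX hZ u v huv (hAX hu.1) (hAX hv.1) (hDZ hu.2) (hDZ hv.2))
  have h3 : A ⊆ (A ∩ C) ∪ (A ∩ D) := by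
    intro v hv
    rcases hr v hv with h | h | h
    · exact absurd h (hn v hv)
    · simp [hv, h]
    · simp [hv, h]
  have := card_le_card h3
  have := card_union_le (A ∩ C) (A ∩ D)
  omega

theorem reg_bacd {V : Type} {A B C D : Finset V} (h : Reg A B C D) : Reg B A C D := by
  intro v
  have := h v
  by_cases h1 : v ∈ A <;> by_cases h2 : v ∈ B <;> by_cases h3 : v ∈ C <;>
    by_cases h4 : v ∈ D <;> simp_all

theorem reg_acbd {V : Type} {A B C D : Finset V} (h : Reg A B C D) : Reg A C B D := by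
  intro v
  have := h v
  by_cases h1 : v ∈ A <;> by_cases h2 : v ∈ B <;> by_cases h3 : v ∈ C <;>
    by_cases h4 : v ∈ D <;> simp_all

theorem reg_abdc {V : Type} {A B C D : Finset V} (h : Reg A B C D) : Reg A B D C := by
  intro v
  have := h v
  by_cases h1 : v ∈ A <;> by_cases h2 : v ∈ B <;> by_cases h3 : v ∈ C <;>
    by_cases h4 : v ∈ D <;> simp_all

/-- four regular triples lie in one block -/
theorem k3 (hD : Des P k IsB) {A B C D X Y Z W : Finset P} (hX : IsB X) (hY : IsB Y) (hZ : IsB Z)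
    (hW : IsB W) (hA : A.card = 3) (hB : B.card = 3) (hC : C.card = 3) (hD3 : D.card = 3)
    (hAX : A ⊆ X) (hBY : B ⊆ Y) (hCZ : C ⊆ Z) (hDW : D ⊆ W)
    (hAB : A ≠ B) (hAC : A ≠ C) (hAD : A ≠ D) (hBC : B ≠ C) (hBD : B ≠ D) (hCD : C ≠ D)
    (hr : Reg A B C D) : X = Y ∧ X = Z ∧ X = W := by
  have r1 := reg_abdc hr
  have r2 := reg_acbd hr
  have r3 := reg_abdc r2
  have r4 := reg_acbd r1
  have r5 := reg_abdc r4
  have s0 := reg_bacd hr
  have s2 := reg_acbd s0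
  have s3 := reg_abdc s2
  have s4 := reg_acbd (reg_abdc s0)
  have s5 := reg_abdc s4
  have t0 := reg_acbd (reg_bacd r3)
  have t1 := reg_abdc t0
  by_cases hXY : X = Y
  · subst hXY
    exact ⟨rfl, k1 hD hX hZ hW hA hB hC hAX hBY hCZ hDW hAB hr,
      k1 hD hX hW hZ hA hB hD3 hAX hBY hDW hCZ hAB r1⟩
  by_cases hXZ : X = Z
  · subst hXZ
    exact absurd (k1 hD hX hY hW hA hC hB hAX hCZ hBY hDW hAC r2) hXY
  by_cases hXW : X = W
  · subst hXW
    exact absurd (k1 hD hX hY hZ hA hD3 hB hAX hDW hBY hCZ hAD r4) hXY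
  by_cases hYZ : Y = Z
  · subst hYZ
    exact absurd (k1 hD hY hX hW hB hC hA hBY hCZ hAX hDW hBC s2).symm hXY
  by_cases hYW : Y = W
  · subst hYW
    exact absurd (k1 hD hY hX hZ hB hD3 hA hBY hDW hAX hCZ hBD s4).symm hXY
  by_cases hZW : Z = W
  · subst hZW
    exact absurd (k1 hD hZ hX hY hC hD3 hA hCZ hDW hAX hBY hCD t0).symm hXZ
  exfalso
  obtain ⟨c, hc1, hc2⟩ := k2 hD hX hZ hW hA hAX hCZ hDW hXZ hXW (fun v => (hr v).1)
  obtain ⟨b, hb1, hb2⟩ := k2 hD hX hY hW hA hAX hBY hDW hXY hXW (fun v => (r2 v).1)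
  obtain ⟨d, hd1, hd2⟩ := k2 hD hX hY hZ hA hAX hBY hCZ hXY hXZ (fun v => (r4 v).1)
  obtain ⟨a, ha1, ha2⟩ := k2 hD hY hX hW hB hBY hAX hDW (Ne.symm hXY) hYW (fun v => (s2 v).1)
  obtain ⟨e, he1, he2⟩ := k2 hD hY hX hZ hB hBY hAX hCZ (Ne.symm hXY) hYZ (fun v => (s4 v).1)
  obtain ⟨f, hf1, hf2⟩ := k2 hD hZ hX hY hC hCZ hAX hBY (Ne.symm hXZ) (Ne.symm hYZ)
    (fun v => (t0 v).1)
  refine hD.on X Y Z W hX hY hZ hW hXZ a b c d e f (hBY ha1) (hCZ ha2) (hAX hb1) (hCZ hb2)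
    (hAX hc1) (hBY hc2) (hAX hd1) (hDW hd2) (hBY he1) (hDW he2) (hCZ hf1) (hDW hf2)
    ?_ ?_ ?_ ?_ ?_ ?_ ?_ ?_ ?_
  · rintro rfl; exact (hr _).2.2.2.2.1 ⟨hb1, hc2, hb2⟩
  · rintro rfl; exact (hr _).2.2.2.2.2.2.1 ⟨hb1, hb2, hd2⟩
  · rintro rfl; exact (hr _).2.2.2.2.2.1 ⟨hc1, hc2, hd2⟩
  · rintro rfl; exact (hr _).2.2.2.2.1 ⟨hc1, hc2, ha2⟩
  · rintro rfl; exact (hr _).2.2.2.2.2.2.2 ⟨ha1, ha2, he2⟩
  · rintro rfl; exact (hr _).2.2.2.2.2.1 ⟨hc1, hc2, he2⟩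
  · rintro rfl; exact (hr _).2.2.2.2.1 ⟨hb1, ha1, ha2⟩
  · rintro rfl; exact (hr _).2.2.2.2.2.2.2 ⟨ha1, ha2, hf2⟩
  · rintro rfl; exact (hr _).2.2.2.2.2.2.1 ⟨hb1, hb2, hf2⟩

theorem step [Fintype P] {V : Type} [Fintype V] [DecidableEq V] {H : Finset (Finset V)}
    (hG : Good V H) (hD : Des P (Fintype.card V) IsB) : ∃ H' : Finset (Finset P), Good P H' := by
  classical
  have hφ : ∀ B, IsB B → ∃ φ : V ↪ P, univ.map φ = B := by
    intro B hB
    have e : V ≃ B := Fintype.equivOfCardEq (by simp [hD.sz B hB])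
    refine ⟨⟨fun v => (e v : P), fun u v h => e.injective (Subtype.ext h)⟩, ?_⟩
    ext p
    simp only [mem_map, mem_univ, true_and]
    constructor
    · rintro ⟨v, rfl⟩
      exact (e v).2
    · intro hp
      exact ⟨e.symm ⟨p, hp⟩, congrArg Subtype.val (e.apply_symm_apply ⟨p, hp⟩)⟩
  choose φ hφ using hφ
  have sub : ∀ B (hB : IsB B) (e : Finset V), e.map (φ B hB) ⊆ B := by
    intro B hB e
    conv_rhs => rw [← hφ B hB]
    exact map_subset_map.mpr (subset_univ _)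
  refine ⟨univ.filter (fun e => ∃ B, ∃ hB : IsB B, ∃ e0 ∈ H, e = e0.map (φ B hB)), ?_, ?_, ?_⟩
  · intro e he
    obtain ⟨B, hB, e0, h0, rfl⟩ := (mem_filter.mp he).2
    rw [card_map]
    exact hG.c3 e0 h0
  · intro a b hab
    obtain ⟨B, hB, ha, hb⟩ := hD.ex a b hab
    rw [← hφ B hB] at ha hb
    obtain ⟨a0, -, rfl⟩ := mem_map.mp ha
    obtain ⟨b0, -, rfl⟩ := mem_map.mp hb
    have hab0 : a0 ≠ b0 := fun h => hab (by rw [h])
    refine (hG.pr a0 b0 hab0).trans ?_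
    refine card_le_card_of_injOn (fun e => e.map (φ B hB)) ?_ ?_
    · intro e he
      have he' := mem_filter.mp (mem_coe.mp he)
      refine mem_coe.mpr (mem_filter.mpr ⟨mem_filter.mpr ⟨mem_univ _, B, hB, e, he'.1, rfl⟩, ?_⟩)
      exact ⟨mem_map_of_mem _ he'.2.1, mem_map_of_mem _ he'.2.2⟩
    · intro e _ e' _ h
      exact map_injective _ h
  · intro A hA B hB C hC D hD' hAB hAC hAD hBC hBD hCD hr
    obtain ⟨X, hX, A0, hA0, rfl⟩ := (mem_filter.mp hA).2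
    obtain ⟨Y, hY, B0, hB0, rfl⟩ := (mem_filter.mp hB).2
    obtain ⟨Z, hZ, C0, hC0, rfl⟩ := (mem_filter.mp hC).2
    obtain ⟨W, hW, D0, hD0, rfl⟩ := (mem_filter.mp hD').2
    obtain ⟨h1, h2, h3⟩ := k3 hD hX hY hZ hW (by rw [card_map]; exact hG.c3 _ hA0)
      (by rw [card_map]; exact hG.c3 _ hB0) (by rw [card_map]; exact hG.c3 _ hC0)
      (by rw [card_map]; exact hG.c3 _ hD0) (sub _ _ _) (sub _ _ _) (sub _ _ _) (sub _ _ _)
      hAB hAC hAD hBC hBD hCD hr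
    subst h1 h2 h3
    refine hG.nr A0 hA0 B0 hB0 C0 hC0 D0 hD0 (fun h => hAB (by rw [h])) (fun h => hAC (by rw [h]))
      (fun h => hAD (by rw [h])) (fun h => hBC (by rw [h])) (fun h => hBD (by rw [h]))
      (fun h => hCD (by rw [h])) ?_
    intro v
    have := hr (φ X hX v)
    simpa only [mem_map'] using this

theorem triv (P : Type) [Fintype P] : Des P (Fintype.card P) (fun B => B = univ) where
  ex := fun a b _ => ⟨univ, rfl, mem_univ _, mem_univ _⟩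
  sz := fun B hB => by rw [hB, card_univ]
  un := fun B B' h h' _ _ _ _ _ _ _ => by rw [h, h']
  on := fun X1 _ X3 _ h1 _ h3 _ h => absurd (by rw [h1, h3]) h

theorem base : Good (Fin 5) (powersetCard 3 univ) where
  c3 := fun e he => (mem_powersetCard.mp he).2
  pr := by decide +kernel
  nr := by
    intro A hA B hB C hC D hD hAB hAC hAD hBC hBD hCD hr
    have hA3 := (mem_powersetCard.mp hA).2
    have hB3 := (mem_powersetCard.mp hB).2
    have hC3 := (mem_powersetCard.mp hC).2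
    have hD3 := (mem_powersetCard.mp hD).2
    have key : ∀ v : Fin 5, (if v ∈ A then 1 else 0) + (if v ∈ B then 1 else 0) +
        (if v ∈ C then 1 else 0) + (if v ∈ D then 1 else 0) ≤ 2 := by
      intro v
      have := hr v
      by_cases h1 : v ∈ A <;> by_cases h2 : v ∈ B <;> by_cases h3 : v ∈ C <;>
        by_cases h4 : v ∈ D <;> simp_all
    have := sum_le_sum (fun v (_ : v ∈ (univ : Finset (Fin 5))) => key v)
    simp only [sum_add_distrib, sum_boole, filter_mem_eq_inter, univ_inter, hA3, hB3, hC3, hD3,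
      sum_const, card_univ, Fintype.card_fin] at this
    simp at this

theorem count {V : Type} [Fintype V] [DecidableEq V] {H : Finset (Finset V)} (hG : Good V H) :
    Fintype.card V * Fintype.card V - Fintype.card V ≤ H.card * 2 := by
  have := card_mul_le_card_mul (s := (univ : Finset V).offDiag) (t := H)
    (fun p e => p.1 ∈ e ∧ p.2 ∈ e) (m := 3) (n := 6) ?_ ?_
  · rw [offDiag_card, card_univ] at this
    omega
  · intro p hp
    exact hG.pr p.1 p.2 (mem_offDiag.mp hp).2.2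
  · intro e he
    have : bipartiteBelow (fun p e => p.1 ∈ e ∧ p.2 ∈ e) (univ : Finset V).offDiag e
        = e.offDiag := by
      ext p
      simp [mem_bipartiteBelow, mem_offDiag]
      tauto
    rw [this, offDiag_card, hG.c3 e he]

theorem noreg {V : Type} [DecidableEq V] {H : Finset (Finset V)} (hG : Good V H) :
    ¬ ∃ F ⊆ H, (F.biUnion id).card = 2 * 3 ∧
      ∀ v ∈ F.biUnion id, (F.filter (fun e => v ∈ e)).card = 2 := by
  rintro ⟨F, hF, h6, h2⟩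
  have hc := card_mul_eq_card_mul (s := F.biUnion id) (t := F) (fun v e => v ∈ e) (m := 2) (n := 3)
    h2 (by
      intro e he
      have : bipartiteBelow (fun v e => v ∈ e) (F.biUnion id) e = e := by
        ext v
        simp only [mem_bipartiteBelow, mem_biUnion, id]
        exact ⟨fun h => h.2, fun h => ⟨⟨e, he, h⟩, h⟩⟩
      rw [this]
      exact hG.c3 e (hF he))
  have h4 : F.card = 4 := by omega
  obtain ⟨A, B, C, D, hAB, hAC, hAD, hBC, hBD, hCD, rfl⟩ := card_eq_four.mp h4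
  refine hG.nr A (hF (by simp)) B (hF (by simp)) C (hF (by simp)) D (hF (by simp))
    hAB hAC hAD hBC hBD hCD ?_
  intro v
  have h := h2 v
  rw [card_filter, sum_insert (by simp [hAB, hAC, hAD]), sum_insert (by simp [hBC, hBD]),
    sum_insert (by simp [hCD]), sum_singleton] at h
  simp only [mem_biUnion, mem_insert, mem_singleton, id, exists_eq_or_imp, exists_eq_left] at h
  by_cases h1 : v ∈ A <;> by_cases h2 : v ∈ B <;> by_cases h3 : v ∈ C <;>
    by_cases h4 : v ∈ D <;> simp_all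

end Pool.Agent.H.MP_bc9e10_co
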