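import Pool.Agent.H.MP_bc9e10_co.A

set_option autoImplicit false

namespace Pool.Agent.H.MP_bc9e10_co

open Finset Polynomial

section lin
variable {F : Type} [Field F]

def dot (l u : F × F × F) : F := l.1 * u.1 + l.2.1 * u.2.1 + l.2.2 * u.2.2

def crs (u v : F × F × F) : F × F × F :=
  (u.2.1 * v.2.2 - u.2.2 * v.2.1, u.2.2 * v.1 - u.1 * v.2.2, u.1 * v.2.1 - u.2.1 * v.1)

def det3 (u v w : F × F × F) : F := dot (crs u v) w

theorem ne0 {l : F × F × F} (h : l ≠ 0) : l.1 ≠ 0 ∨ l.2.1 ≠ 0 ∨ l.2.2 ≠ 0 := by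
  by_contra hn
  push Not at hn
  exact h (Prod.ext hn.1 (Prod.ext hn.2.1 hn.2.2))

theorem det_zero {l u v w : F × F × F} (hl : l ≠ 0) (hu : dot l u = 0) (hv : dot l v = 0)
    (hw : dot l w = 0) : det3 u v w = 0 := by
  unfold det3 dot crs at *
  rcases ne0 hl with h | h | h
  · apply mul_left_cancel₀ h
    simp only
    linear_combination (v.2.1 * w.2.2 - v.2.2 * w.2.1) * hu + (w.2.1 * u.2.2 - w.2.2 * u.2.1) * hv
      + (u.2.1 * v.2.2 - u.2.2 * v.2.1) * hw
  · apply mul_left_cancel₀ h
    simp only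
    linear_combination (v.2.2 * w.1 - v.1 * w.2.2) * hu + (w.2.2 * u.1 - w.1 * u.2.2) * hv
      + (u.2.2 * v.1 - u.1 * v.2.2) * hw
  · apply mul_left_cancel₀ h
    simp only
    linear_combination (v.1 * w.2.1 - v.2.1 * w.1) * hu + (w.1 * u.2.1 - w.2.1 * u.1) * hv
      + (u.1 * v.2.1 - u.2.1 * v.1) * hw

theorem dot_zero {l u v w : F × F × F} (hn : crs u v ≠ 0) (hu : dot l u = 0) (hv : dot l v = 0)
    (hw : det3 u v w = 0) : dot l w = 0 := by
  have h0 := ne0 hn
  unfold det3 dot crs at *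
  simp only at h0 hw
  rcases h0 with h | h | h
  · apply mul_left_cancel₀ h
    linear_combination l.1 * hw - (v.2.1 * w.2.2 - v.2.2 * w.2.1) * hu
      - (w.2.1 * u.2.2 - w.2.2 * u.2.1) * hv
  · apply mul_left_cancel₀ h
    linear_combination l.2.1 * hw - (v.2.2 * w.1 - v.1 * w.2.2) * hu
      - (w.2.2 * u.1 - w.1 * u.2.2) * hv
  · apply mul_left_cancel₀ h
    linear_combination l.2.2 * hw - (v.1 * w.2.1 - v.2.1 * w.1) * hu
      - (w.1 * u.2.1 - w.2.1 * u.1) * hv

def cmb (s : F) (u : F × F × F) (t : F) (v : F × F × F) : F × F × F :=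
  (s * u.1 + t * v.1, s * u.2.1 + t * v.2.1, s * u.2.2 + t * v.2.2)

theorem span2 {u v w : F × F × F} (hn : crs u v ≠ 0) (hw : det3 u v w = 0) :
    ∃ s t, w = cmb s u t v := by
  have h0 := ne0 hn
  unfold det3 dot crs at *
  simp only at h0 hw
  rcases h0 with h | h | h
  · refine ⟨(crs w v).1 / (crs u v).1, (crs u w).1 / (crs u v).1, ?_⟩
    unfold cmb crs
    refine Prod.ext ?_ (Prod.ext ?_ ?_) <;> simp only <;>
      rw [div_mul_eq_mul_div, div_mul_eq_mul_div, ← add_div, eq_div_iff h]
    · linear_combination hw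
    · ring
    · ring
  · refine ⟨(crs w v).2.1 / (crs u v).2.1, (crs u w).2.1 / (crs u v).2.1, ?_⟩
    unfold cmb crs
    refine Prod.ext ?_ (Prod.ext ?_ ?_) <;> simp only <;>
      rw [div_mul_eq_mul_div, div_mul_eq_mul_div, ← add_div, eq_div_iff h]
    · ring
    · linear_combination hw
    · ring
  · refine ⟨(crs w v).2.2 / (crs u v).2.2, (crs u w).2.2 / (crs u v).2.2, ?_⟩
    unfold cmb crs
    refine Prod.ext ?_ (Prod.ext ?_ ?_) <;> simp only <;>
      rw [div_mul_eq_mul_div, div_mul_eq_mul_div, ← add_div, eq_div_iff h]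
    · ring
    · ring
    · linear_combination hw

theorem coef {u v w : F × F × F} {s t : F} (h : w = cmb s u t v) (h1 : crs w u ≠ 0)
    (h2 : crs w v ≠ 0) : s ≠ 0 ∧ t ≠ 0 := by
  subst h
  constructor
  · rintro rfl
    apply h2
    unfold crs cmb
    refine Prod.ext ?_ (Prod.ext ?_ ?_) <;> simp <;> ring
  · rintro rfl
    apply h1
    unfold crs cmb
    refine Prod.ext ?_ (Prod.ext ?_ ?_) <;> simp <;> ring

def her (σ : F →+* F) (u v : F × F × F) : F :=
  u.2.1 * σ v.2.1 - u.1 * σ v.2.2 - u.2.2 * σ v.1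

theorem her_sym {σ : F →+* F} (hσ : ∀ x, σ (σ x) = x) (u v : F × F × F) :
    σ (her σ u v) = her σ v u := by
  unfold her
  simp only [map_sub, map_mul, hσ]
  ring

theorem skew {σ : F →+* F} {u v : F × F × F} {s t : F} (hu : her σ u u = 0) (hv : her σ v v = 0)
    (hw : her σ (cmb s u t v) (cmb s u t v) = 0) :
    s * σ t * her σ u v + t * σ s * her σ v u = 0 := by
  unfold her cmb at *
  simp only [map_add, map_mul] at hw
  linear_combination hw - s * σ s * hu - t * σ t * hv

theorem gram (σ : F →+* F) (a b c : F × F × F) :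
    her σ a a * (her σ b b * her σ c c - her σ b c * her σ c b)
      - her σ a b * (her σ b a * her σ c c - her σ b c * her σ c a)
      + her σ a c * (her σ b a * her σ c b - her σ b b * her σ c a)
      = - (det3 a b c * σ (det3 a b c)) := by
  unfold her det3 dot crs
  simp only [map_add, map_sub, map_mul]
  ring

theorem onan {σ : F →+* F} {a b c : F × F × F} {s1 t1 s2 t2 s3 t3 : F}
    (ha : her σ a a = 0) (hb : her σ b b = 0) (hc : her σ c c = 0)
    (hd : her σ (cmb s1 b t1 c) (cmb s1 b t1 c) = 0)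
    (he : her σ (cmb s2 c t2 a) (cmb s2 c t2 a) = 0)
    (hf : her σ (cmb s3 a t3 b) (cmb s3 a t3 b) = 0)
    (n1 : s1 ≠ 0) (n2 : s2 ≠ 0) (n3 : s3 ≠ 0)
    (hdet : det3 a b c ≠ 0)
    (h0 : det3 (cmb s1 b t1 c) (cmb s2 c t2 a) (cmb s3 a t3 b) = 0) : False := by
  have k1 := skew hb hc hd
  have k2 := skew hc ha he
  have k3 := skew ha hb hf
  have g := gram σ a b c
  rw [ha, hb, hc] at g
  have e1 : det3 (cmb s1 b t1 c) (cmb s2 c t2 a) (cmb s3 a t3 b)
      = (s1 * s2 * s3 + t1 * t2 * t3) * det3 a b c := by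
    unfold det3 dot crs cmb
    ring
  rw [e1] at h0
  have e2 : s1 * s2 * s3 + t1 * t2 * t3 = 0 := (mul_eq_zero.mp h0).resolve_right hdet
  have e3 : σ s1 * σ s2 * σ s3 + σ t1 * σ t2 * σ t3 = 0 := by
    have := congrArg σ e2
    simpa using this
  have hs : s1 * s2 * s3 ≠ 0 := mul_ne_zero (mul_ne_zero n1 n2) n3
  have hs' : σ s1 * σ s2 * σ s3 ≠ 0 := by
    have := (map_ne_zero σ).mpr hs
    simpa using this
  have hd' : det3 a b c * σ (det3 a b c) ≠ 0 := mul_ne_zero hdet ((map_ne_zero σ).mpr hdet)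
  apply mul_ne_zero (mul_ne_zero hs hs') hd'
  generalize det3 a b c * σ (det3 a b c) = D at *
  generalize her σ b c = x at *
  generalize her σ c b = x' at *
  generalize her σ c a = y at *
  generalize her σ a c = y' at *
  generalize her σ a b = z at *
  generalize her σ b a = z' at *
  have p : (s1 * σ t1 * x) * (s2 * σ t2 * y) * (s3 * σ t3 * z)
      = - ((t1 * σ s1 * x') * (t2 * σ s2 * y') * (t3 * σ s3 * z')) := by
    rw [eq_neg_of_add_eq_zero_left k1, eq_neg_of_add_eq_zero_left k2,
      eq_neg_of_add_eq_zero_left k3]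
    ring
  linear_combination (s1 * s2 * s3 * (σ s1 * σ s2 * σ s3)) * g + p
    - (s1 * s2 * s3 * x * y * z) * e3 - (σ s1 * σ s2 * σ s3 * x' * y' * z') * e2

end lin

theorem fib {α β : Type} [DecidableEq β] (A : Finset α) (B : Finset β) (g : α → β) (k : ℕ)
    (hg : ∀ a ∈ A, g a ∈ B) (h1 : ∀ b ∈ B, (A.filter (fun a => g a = b)).card ≤ k)
    (h2 : B.card * k ≤ A.card) : ∀ b ∈ B, (A.filter (fun a => g a = b)).card = k := by
  intro b hb
  by_contra hne
  have := card_eq_sum_card_fiberwise (f := g) (s := A) (t := B) hg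
  have h3 : ∑ b ∈ B, (A.filter (fun a => g a = b)).card < ∑ _b ∈ B, k :=
    sum_lt_sum h1 ⟨b, hb, lt_of_le_of_ne (h1 b hb) hne⟩
  rw [sum_const, smul_eq_mul] at h3
  omega

section fld
variable {F : Type} [Field F] [Fintype F] [DecidableEq F]

theorem rootle (p : F[X]) (hp : p ≠ 0) (S : Finset F) (hS : ∀ x ∈ S, p.eval x = 0) :
    S.card ≤ p.natDegree := by
  refine card_le_degree_of_subset_roots ?_
  intro x hx
  exact (mem_roots hp).mpr (hS x hx)

theorem rootle' (q : ℕ) (hq : 2 ≤ q) (a c : F) (S : Finset F)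
    (hS : ∀ x ∈ S, x ^ q + a * x = c) : S.card ≤ q := by
  have hd : (X ^ q + (C a * X - C c) : F[X]).natDegree = q := by
    rw [natDegree_add_eq_left_of_natDegree_lt] <;> rw [natDegree_X_pow]
    have : (C a * X - C c : F[X]).natDegree ≤ 1 := by compute_degree
    omega
  rw [← hd]
  refine rootle _ ?_ S ?_
  · intro h
    rw [h] at hd
    simp at hd
    omega
  · intro x hx
    have := hS x hx
    simp only [eval_add, eval_pow, eval_X, eval_sub, eval_mul, eval_C]
    linear_combination this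

variable {q : ℕ} {σ : F →+* F}

theorem fixle (hq : 2 ≤ q) (hp : ∀ x, σ x = x ^ q) :
    (univ.filter (fun z : F => σ z = z)).card ≤ q := by
  refine rootle' q hq (-1) 0 _ ?_
  intro x hx
  rw [← hp, (mem_filter.mp hx).2]
  ring

theorem trfib (hq : 2 ≤ q) (hc : Fintype.card F = q * q) (hp : ∀ x, σ x = x ^ q)
    (hσ : ∀ x, σ (σ x) = x) (c : F) (h : σ c = c) :
    (univ.filter (fun y : F => σ y + y = c)).card = q := by
  refine fib univ (univ.filter (fun z : F => σ z = z)) (fun y => σ y + y) q ?_ ?_ ?_ c (by simp [h])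
  · intro a _
    simp [hσ, add_comm]
  · intro b _
    refine rootle' q hq 1 b _ ?_
    intro x hx
    rw [← hp, one_mul]
    exact (mem_filter.mp hx).2
  · rw [card_univ, hc]
    exact Nat.mul_le_mul_right _ (fixle hq hp)

theorem nmfib (hq : 2 ≤ q) (hc : Fintype.card F = q * q) (hp : ∀ x, σ x = x ^ q)
    (hσ : ∀ x, σ (σ x) = x) (c : F) (h : σ c = c) (h0 : c ≠ 0) :
    (univ.filter (fun y : F => y * σ y = c)).card = q + 1 := by
  have := fib (univ.erase (0 : F)) ((univ.filter (fun z : F => σ z = z)).erase 0)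
    (fun y => y * σ y) (q + 1) ?_ ?_ ?_ c (by simp [h, h0])
  · rw [← this]
    congr 1
    ext y
    simp only [mem_filter, mem_univ, true_and, mem_erase, and_true]
    refine ⟨fun hy => ⟨?_, hy⟩, fun hy => hy.2⟩
    rintro rfl
    exact h0 (by simpa using hy.symm)
  · intro a ha
    have ha' := (mem_erase.mp ha).1
    simp [hσ, mul_comm, ha']
  · intro b _
    refine rootle' (q + 1) (by omega) 0 b _ ?_
    intro x hx
    rw [pow_succ, ← hp, zero_mul, add_zero, mul_comm]
    exact (mem_filter.mp hx).2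
  · rw [card_erase_of_mem (by simp), card_erase_of_mem (by simp), card_univ, hc]
    have h1 := fixle hq hp
    calc _ ≤ (q - 1) * (q + 1) := Nat.mul_le_mul_right _ (by omega)
      _ = q * q - 1 := by
        obtain ⟨r, rfl⟩ : ∃ r, q = r + 1 := ⟨q - 1, by omega⟩
        have : (r + 1) * (r + 1) = r * (r + 1 + 1) + 1 := by ring
        simp [this]

abbrev Pt (σ : F →+* F) : Type := Option {p : F × F // σ p.2 + p.2 = p.1 * σ p.1}

def vec (σ : F →+* F) : Pt σ → F × F × F
  | none => (0, 0, 1)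
  | some p => (1, p.1.1, p.1.2)

omit [Fintype F] [DecidableEq F] in
theorem vec_iso (p : Pt σ) : her σ (vec σ p) (vec σ p) = 0 := by
  cases p with
  | none => simp [her, vec]
  | some p =>
    have := p.2
    simp only [her, vec, map_one]
    linear_combination - this

omit [Fintype F] [DecidableEq F] in
theorem vec_crs {p r : Pt σ} (h : p ≠ r) : crs (vec σ p) (vec σ r) ≠ 0 := by
  intro h0
  have h1 := congrArg (fun u => u.2.1) h0
  have h2 := congrArg (fun u => u.2.2) h0
  cases p with
  | none =>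
    cases r with
    | none => exact h rfl
    | some r => simp [crs, vec] at h1
  | some p =>
    cases r with
    | none => simp [crs, vec] at h1
    | some r =>
      simp only [crs, vec, mul_one, one_mul, Prod.snd_zero, Prod.fst_zero] at h1 h2
      apply h
      congr 1
      refine Subtype.ext (Prod.ext ?_ ?_)
      · linear_combination - h2
      · linear_combination h1

def blk (σ : F →+* F) (l : F × F × F) : Finset (Pt σ) := univ.filter (fun p => dot l (vec σ p) = 0)

theorem mem_blk {l : F × F × F} {p : Pt σ} : p ∈ blk σ l ↔ dot l (vec σ p) = 0 := by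
  simp [blk]

theorem card_pt (hq : 2 ≤ q) (hc : Fintype.card F = q * q) (hp : ∀ x, σ x = x ^ q)
    (hσ : ∀ x, σ (σ x) = x) : Fintype.card (Pt σ) = q * q * q + 1 := by
  rw [Fintype.card_option, Fintype.card_subtype, card_filter, Fintype.sum_prod_type]
  have : ∀ x : F, (∑ y : F, if σ y + y = x * σ x then 1 else 0) = q := by
    intro x
    rw [← card_filter]
    exact trfib hq hc hp hσ _ (by simp [hσ, mul_comm])
  simp only [this, sum_const, card_univ, hc, smul_eq_mul]

theorem blkV (hq : 2 ≤ q) (hc : Fintype.card F = q * q) (hp : ∀ x, σ x = x ^ q)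
    (hσ : ∀ x, σ (σ x) = x) (x0 : F) : (blk σ (-x0, 1, 0)).card = q + 1 := by
  have h0 : none ∈ blk σ (-x0, 1, 0) := by simp [mem_blk, dot, vec]
  rw [← card_erase_add_one h0, ← trfib hq hc hp hσ (x0 * σ x0) (by simp [hσ, mul_comm])]
  congr 1
  symm
  refine card_bij (fun y hy => some ⟨(x0, y), (mem_filter.mp hy).2⟩) ?_ ?_ ?_
  · intro y hy
    simp [mem_blk, dot, vec]
  · intro y hy y' hy' h
    simpa using h
  · intro p hp
    obtain ⟨h1, h2⟩ := mem_erase.mp hp
    cases p with
    | none => exact absurd rfl h1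
    | some p =>
      obtain ⟨⟨x, y⟩, hxy⟩ := p
      have : x = x0 := by
        simp only [mem_blk, dot, vec] at h2
        linear_combination h2
      subst this
      exact ⟨y, by simpa using hxy, rfl⟩

theorem blkL (hq : 2 ≤ q) (hc : Fintype.card F = q * q) (hp : ∀ x, σ x = x ^ q)
    (hσ : ∀ x, σ (σ x) = x) (α β : F) (h : α * σ α + (σ β + β) ≠ 0) :
    (blk σ (β, α, -1)).card = q + 1 := by
  rw [← nmfib hq hc hp hσ _ (by simp [hσ, mul_comm, add_comm]) h]
  symm
  refine card_bij (fun z hz => some ⟨(z + σ α, α * (z + σ α) + β), ?_⟩) ?_ ?_ ?_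
  · have := (mem_filter.mp hz).2
    simp only [map_add, map_mul, hσ]
    linear_combination - this
  · intro y hy
    simp only [mem_blk, dot, vec]
    ring
  · intro y hy y' hy' h
    simp only [Option.some.injEq, Subtype.mk.injEq, Prod.mk.injEq] at h
    exact add_right_cancel h.1
  · intro p hp
    cases p with
    | none => simp [mem_blk, dot, vec] at hp
    | some p =>
      obtain ⟨⟨x, y⟩, hxy⟩ := p
      have : y = α * x + β := by
        simp only [mem_blk, dot, vec] at hp
        linear_combination - hp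
      subst this
      refine ⟨x - σ α, ?_, by simp⟩
      simp only [map_add, map_mul] at hxy
      simp only [mem_filter, mem_univ, true_and, map_sub, hσ]
      linear_combination - hxy

theorem unital (hq : 2 ≤ q) (hc : Fintype.card F = q * q) (hp : ∀ x, σ x = x ^ q)
    (hσ : ∀ x, σ (σ x) = x) :
    Des (Pt σ) (q + 1) (fun B => ∃ l, l ≠ 0 ∧ B = blk σ l ∧ B.card = q + 1) where
  ex := by
    have hV : ∀ x0 : F, ((-x0, 1, 0) : F × F × F) ≠ 0 := by intro x0; simp
    intro a b hab
    cases a with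
    | none =>
      cases b with
      | none => exact absurd rfl hab
      | some b =>
        exact ⟨_, ⟨_, hV b.1.1, rfl, blkV hq hc hp hσ _⟩, by simp [mem_blk, dot, vec],
          by simp [mem_blk, dot, vec]⟩
    | some a =>
      cases b with
      | none =>
        exact ⟨_, ⟨_, hV a.1.1, rfl, blkV hq hc hp hσ _⟩, by simp [mem_blk, dot, vec],
          by simp [mem_blk, dot, vec]⟩
      | some b =>
        obtain ⟨⟨x, y⟩, hxy⟩ := a
        obtain ⟨⟨x', y'⟩, hxy'⟩ := b
        by_cases hx : x = x'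
        · subst hx
          exact ⟨_, ⟨_, hV x, rfl, blkV hq hc hp hσ _⟩, by simp [mem_blk, dot, vec],
            by simp [mem_blk, dot, vec]⟩
        · have hx' : x - x' ≠ 0 := sub_ne_zero.mpr hx
          obtain ⟨α, hα⟩ : ∃ α, α * (x - x') = y - y' := ⟨(y - y') / (x - x'), by field_simp⟩
          obtain ⟨β, rfl⟩ : ∃ β, y = α * x + β := ⟨y - α * x, by ring⟩
          obtain rfl : y' = α * x' + β := by linear_combination hα
          refine ⟨_, ⟨(β, α, -1), by simp, rfl, blkL hq hc hp hσ α β ?_⟩, ?_, ?_⟩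
          · intro h0
            simp only [map_add, map_mul] at hxy hxy'
            have e1 : (x - σ α) * σ (x - σ α) = 0 := by
              simp only [map_sub, hσ]
              linear_combination h0 - hxy
            have e2 : (x' - σ α) * σ (x' - σ α) = 0 := by
              simp only [map_sub, hσ]
              linear_combination h0 - hxy'
            have f1 : x - σ α = 0 := by
              rcases mul_eq_zero.mp e1 with h | h
              · exact h
              · exact (map_eq_zero σ).mp h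
            have f2 : x' - σ α = 0 := by
              rcases mul_eq_zero.mp e2 with h | h
              · exact h
              · exact (map_eq_zero σ).mp h
            exact hx' (by linear_combination f1 - f2)
          · simp only [mem_blk, dot, vec]
            ring
          · simp only [mem_blk, dot, vec]
            ring
  sz := fun B hB => by obtain ⟨l, -, -, h⟩ := hB; exact h
  un := by
    rintro B B' ⟨l, hl, rfl, -⟩ ⟨l', hl', rfl, -⟩ a b hab h1 h2 h3 h4
    rw [mem_blk] at h1 h2 h3 h4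
    ext w
    rw [mem_blk, mem_blk]
    exact ⟨fun h => dot_zero (vec_crs hab) h3 h4 (det_zero hl h1 h2 h),
      fun h => dot_zero (vec_crs hab) h1 h2 (det_zero hl' h3 h4 h)⟩
  on := by
    rintro X1 X2 X3 X4 ⟨l1, hl1, rfl, -⟩ ⟨l2, hl2, rfl, -⟩ ⟨l3, hl3, rfl, -⟩ ⟨l4, hl4, rfl, -⟩ h13
      a b c d e f a2 a3 b1 b3 c1 c2 d1 d4 e2 e4 f3 f4 bc db dc ac ea ec ab fa fb
    rw [mem_blk] at a2 a3 b1 b3 c1 c2 d1 d4 e2 e4 f3 f4
    obtain ⟨s1, t1, hd⟩ := span2 (vec_crs bc) (det_zero hl1 b1 c1 d1)
    obtain ⟨s2, t2, he⟩ := span2 (vec_crs ac.symm) (det_zero hl2 c2 a2 e2)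
    obtain ⟨s3, t3, hf⟩ := span2 (vec_crs ab) (det_zero hl3 a3 b3 f3)
    have hdet : det3 (vec σ a) (vec σ b) (vec σ c) ≠ 0 := by
      intro h0
      have h1 : det3 (vec σ b) (vec σ c) (vec σ a) = 0 := by
        rw [← h0]
        unfold det3 dot crs
        ring
      have a1 := dot_zero (vec_crs bc) b1 c1 h1
      apply h13
      ext w
      rw [mem_blk, mem_blk]
      exact ⟨fun h => dot_zero (vec_crs ab) a3 b3 (det_zero hl1 a1 b1 h),
        fun h => dot_zero (vec_crs ab) a1 b1 (det_zero hl3 a3 b3 h)⟩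
    refine onan (σ := σ) (vec_iso a) (vec_iso b) (vec_iso c) (hd ▸ vec_iso d) (he ▸ vec_iso e)
      (hf ▸ vec_iso f) (coef hd (vec_crs db) (vec_crs dc)).1 (coef he (vec_crs ec) (vec_crs ea)).1
      (coef hf (vec_crs fa) (vec_crs fb)).1 hdet ?_
    rw [← hd, ← he, ← hf]
    exact det_zero hl4 d4 e4 f4

end fld

theorem tower (i : ℕ) : ∃ (V : Type) (_ : Fintype V) (_ : DecidableEq V) (H : Finset (Finset V)),
    Fintype.card V = 2 ^ (2 * 3 ^ i) + 1 ∧ Good V H := by
  induction i with
  | zero => exact ⟨Fin 5, inferInstance, inferInstance, _, by simp, base⟩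
  | succ i ih =>
    classical
    obtain ⟨V, _, _, H, hV, hG⟩ := ih
    set m := 2 * 3 ^ i with hm
    have hm0 : m ≠ 0 := by positivity
    haveI : Fact (Nat.Prime 2) := ⟨Nat.prime_two⟩
    let F := GaloisField 2 (2 * m)
    letI : Fintype F := Fintype.ofFinite F
    have hc : Fintype.card F = 2 ^ m * 2 ^ m := by
      rw [← Nat.card_eq_fintype_card, GaloisField.card 2 (2 * m) (by omega), two_mul, pow_add]
    let σ : F →+* F := iterateFrobenius F 2 m
    have hp : ∀ x, σ x = x ^ 2 ^ m := fun x => iterateFrobenius_def 2 m x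
    have hσ : ∀ x, σ (σ x) = x := by
      intro x
      rw [hp, hp, ← pow_mul, ← hc, FiniteField.pow_card]
    have hq : 2 ≤ 2 ^ m := by
      calc 2 = 2 ^ 1 := rfl
        _ ≤ 2 ^ m := Nat.pow_le_pow_right (by norm_num) (by omega)
    have hD := unital hq hc hp hσ
    rw [← hV] at hD
    obtain ⟨H', hH'⟩ := step hG hD
    refine ⟨Pt σ, inferInstance, inferInstance, H', ?_, hH'⟩
    rw [card_pt hq hc hp hσ, ← pow_add, ← pow_add, hm, pow_succ]
    congr 2
    ring

theorem fin_good (i : ℕ) : ∃ H : Finset (Finset (Fin (2 ^ (2 * 3 ^ i) + 1))), Good _ H := by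
  obtain ⟨V, _, _, H, hV, hG⟩ := tower i
  have hD := triv (Fin (2 ^ (2 * 3 ^ i) + 1))
  rw [(Fintype.card_fin _).trans hV.symm] at hD
  exact step hG hD

end Pool.Agent.H.MP_bc9e10_co
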